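import Pool.Agent.Q95.PW.C

/-!
# MP_9bce2c_an: the weighted matrix power mean with exponent 1/2 is monotonic with respect to
every Schatten metric

`mean p t X Y = (t X^p + (1-t) Y^p)^(1/p)`, `schatten q` the `ℓ_q` norm of the singular values
(`q ∈ [1,∞]`), `Monotonic p q`: for every size and all positive definite `X, Y`, the function
`t ↦ ‖mean p t X Y - Y‖_q` is nondecreasing on `[0,1]`.
-/

set_option autoImplicit false

open Matrix
open scoped ENNReal ComplexOrder

namespace Pool.Agent.Results.MP_9bce2c_an.ExponentOneHalf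

open Pool.Agent.Q95.PW Q95.Schatten

/-- The pair `(1/2, q)` is monotonic for every `q ∈ [1,∞]`; so there is a `p ≠ 1` which works for all
Schatten metrics at once.  Quantitative form: for `0 ≤ s ≤ t ≤ 1`, `t > 0`, the distance of the mean
with weight `s` is at most `1 - (1 - s/t)²` times the distance of the mean with weight `t`; and the
distance is strictly increasing in the weight if `X ≠ Y`. -/
theorem result :
    (∀ q : ℝ≥0∞, 1 ≤ q → Monotonic (1 / 2) q) ∧
    (∃ p : ℝ, p ≠ 0 ∧ p ≠ 1 ∧ ∀ q : ℝ≥0∞, 1 ≤ q → Monotonic p q) ∧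
    (∀ (N : ℕ) (X Y : Matrix (Fin N) (Fin N) ℂ), X.PosDef → Y.PosDef → ∀ q : ℝ≥0∞, 1 ≤ q →
      (∀ s t : ℝ, 0 ≤ s → s ≤ t → 0 < t → t ≤ 1 →
        schatten q (mean (1 / 2) s X Y - Y) ≤
          (1 - (1 - s / t) ^ 2) * schatten q (mean (1 / 2) t X Y - Y)) ∧
      (X ≠ Y → StrictMonoOn (fun t : ℝ => schatten q (mean (1 / 2) t X Y - Y)) (Set.Icc 0 1))) := by
  have hmono : ∀ q : ℝ≥0∞, 1 ≤ q → Monotonic (1 / 2) q := by
    intro q hq N X Y hX hY s hs t ht hst
    rcases hst.eq_or_lt with rfl | hlt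
    · exact le_rfl
    · have ht0 : 0 < t := lt_of_le_of_lt hs.1 hlt
      refine (half_quant hX hY hs.1 hst ht0 ht.2 hq).trans ?_
      have h0 := schatten_nonneg q (mean_sub_herm hX hY ht.1 ht.2)
      have h1 := mul_nonneg (sq_nonneg (1 - s / t)) h0
      simp only
      nlinarith
  refine ⟨hmono, ⟨1 / 2, by norm_num, by norm_num, hmono⟩, ?_⟩
  intro N X Y hX hY q hq
  refine ⟨fun s t hs hst ht0 ht1 => half_quant hX hY hs hst ht0 ht1 hq, ?_⟩
  intro hne s hs t ht hst
  have ht0 : 0 < t := lt_of_le_of_lt hs.1 hst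
  refine lt_of_le_of_lt (half_quant hX hY hs.1 hst.le ht0 ht.2 hq) ?_
  have hp := half_pos hX hY hne ht0 ht.2 hq
  have h1 : 0 < 1 - s / t := by
    rw [sub_pos, div_lt_one ht0]
    exact hst
  have h2 : 0 < (1 - s / t) ^ 2 * schatten q (mean (1 / 2) t X Y - Y) := by positivity
  simp only
  nlinarith

end Pool.Agent.Results.MP_9bce2c_an.ExponentOneHalf
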